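import Pool.Agent.Run7.h8.Count6

set_option autoImplicit false

namespace Pool.Agent.Results.MP_cdca5f_co.AlmostEveryGraph

/-- For every `j`, the proportion of the labelled graphs `H` on `n` vertices for which there is no
graph `G` on `m` vertices, `n ≤ m < 2 ^ n`, such that `G` has no induced copy of `H` while every
graph `G'` differing from `G` in exactly one pair has an induced copy of `H`, is `o(n ^ (-j))`. -/
theorem result (j : ℕ) :
    Filter.Tendsto (fun n : ℕ => (n : ℝ) ^ j *
      ((Nat.card {H : SimpleGraph (Fin n) //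
        ¬ ∃ m : ℕ, n ≤ m ∧ m < 2 ^ n ∧ ∃ G : SimpleGraph (Fin m),
          IsEmpty (H ↪g G) ∧
            ∀ G' : SimpleGraph (Fin m),
              (∃ e : Sym2 (Fin m), ∀ f : Sym2 (Fin m),
                ((f ∈ G.edgeSet ↔ f ∈ G'.edgeSet) ↔ f ≠ e)) →
              Nonempty (H ↪g G')} : ℝ) /
        (Nat.card (SimpleGraph (Fin n)) : ℝ)))
      Filter.atTop (nhds 0) := by
  have h := Run7.h8.superpoly j
  simp only [Run7.h8.HasSat, Run7.h8.IndSat, Fintype.card_fin] at h
  exact h

end Pool.Agent.Results.MP_cdca5f_co.AlmostEveryGraph
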